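import Mathlib
import Pool.Agent.MP_62dea9_al.Defs
import Pool.Agent.MP_62dea9_al.Final

set_option autoImplicit false

open Pool.Agent.MP_62dea9_al

universe u

/-- Approximate subgroups `A` of `GL_d(F)` such that all elements of `A²` have a large eigenspace:
many elements of `A²` act as scalars on a common large section `V₂ / V₁`. -/
theorem Pool.Agent.Results.MP_62dea9_al.LargeEigenspace.result :
    ∃ c : ℝ, 0 < c ∧ ∃ C : ℝ, 1 ≤ C ∧
      ∀ (F : Type u) [Field F] (d : ℕ), 1 ≤ d → ∀ K : ℝ, 1 ≤ K →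
        ∀ A : Set (Matrix.GeneralLinearGroup (Fin d) F), A.Finite → IsApproximateSubgroup K A →
          (∀ a ∈ sqSet A, HasEigenspaceDimGe a ((1 - c) * d)) →
          ∃ V₁ V₂ : Submodule F (Fin d → F), V₁ ≤ V₂ ∧ c * d < dimR V₂ - dimR V₁ ∧
            (2 * K) ^ (-(C * (d : ℝ) ^ C)) * (sqSet A).ncard ≤
              {a ∈ sqSet A | MapsScalarMod a V₁ V₂}.ncard :=
  final'
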